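import Pool.Agent.W207.PU.SpecA

set_option autoImplicit false
set_option linter.all false

/-! Project PU (helper207): fourth moment of the weighted number of zeros in a cell. -/

open Complex Filter Topology Set MeasureTheory
open scoped BigOperators

namespace Pool.Agent.W337.PU

open W207.PU
open Pool.Agent.H24R2.JP (XX HH Om)
open Pool.Agent.H24R2.DZ (ra NN SC1 SC2 SCount SFar SUnit)

/-- counting cells in a set of small measure -/
theorem count_cells (L : ℝ) (hL : 0 < L) (B : Finset ℤ) (S : Set ℝ) (M : ℝ) (hM : 0 ≤ M)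
    (hS : volume S ≤ ENNReal.ofReal M)
    (hB : ∀ k ∈ B, Set.Ico ((k : ℝ) / L) (((k : ℝ) + 1) / L) ⊆ S) : (B.card : ℝ) ≤ M * L := by
  have h1 : volume (⋃ k ∈ B, Set.Ico ((k : ℝ) / L) (((k : ℝ) + 1) / L)) =
      ∑ k ∈ B, volume (Set.Ico ((k : ℝ) / L) (((k : ℝ) + 1) / L)) := by
    refine measure_biUnion_finset ?_ (fun k _ => measurableSet_Ico)
    intro i _ j _ hij
    rw [Function.onFun, Set.disjoint_left]
    intro x hx hx'
    apply hij
    have hi : ⌊x * L⌋ = i := by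
      rw [Int.floor_eq_iff]
      exact ⟨(div_le_iff₀ hL).1 hx.1, (lt_div_iff₀ hL).1 hx.2⟩
    have hj : ⌊x * L⌋ = j := by
      rw [Int.floor_eq_iff]
      exact ⟨(div_le_iff₀ hL).1 hx'.1, (lt_div_iff₀ hL).1 hx'.2⟩
    rw [← hi, ← hj]
  have h2 : ∀ k ∈ B, volume (Set.Ico ((k : ℝ) / L) (((k : ℝ) + 1) / L)) = ENNReal.ofReal (1 / L) := by
    intro k _
    rw [Real.volume_Ico]
    congr 1
    field_simp
    ring
  rw [Finset.sum_congr rfl h2, Finset.sum_const, nsmul_eq_mul] at h1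
  have h3 : (⋃ k ∈ B, Set.Ico ((k : ℝ) / L) (((k : ℝ) + 1) / L)) ⊆ S := by
    intro x hx
    simp only [Set.mem_iUnion] at hx
    obtain ⟨k, hk, hx⟩ := hx
    exact hB k hk hx
  have h4 := (measure_mono h3).trans hS
  rw [h1] at h4
  have h5 : (B.card : ENNReal) * ENNReal.ofReal (1 / L) = ENNReal.ofReal ((B.card : ℝ) * (1 / L)) := by
    rw [ENNReal.ofReal_mul (Nat.cast_nonneg _), ENNReal.ofReal_natCast]
  rw [h5, ENNReal.ofReal_le_ofReal_iff hM] at h4
  have h6 : (B.card : ℝ) / L ≤ M := by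
    rw [mul_one_div] at h4; exact h4
  exact (div_le_iff₀ hL).1 h6

/-- zeros of a cell -/
theorem cell_iff {V : ℝ} {s : ℂ} {k : ℤ} (hL : 0 < Real.log V) :
    ci V s = k ↔ (k : ℝ) / Real.log V ≤ s.im ∧ s.im < ((k : ℝ) + 1) / Real.log V := by
  unfold ci
  rw [Int.floor_eq_iff, div_le_iff₀ hL, lt_div_iff₀ hL]

/-- sum over a cell, transferred to the zeros of `XX` -/
theorem sum_transfer (hXZ : S_XZ) (V : ℝ) (hV : 10 ≤ V) (A : Finset ℂ)
    (hA : ∀ s ∈ A, riemannZeta s = 0 ∧ 0 < s.re ∧ s.re < 1 ∧ V ≤ s.im ∧ s.im ≤ 2 * V) :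
    (∀ z ∈ A.image (fun s => s - 1 / 2), XX z = 0) ∧
    ∑ z ∈ A.image (fun s => s - 1 / 2), (analyticOrderNatAt XX z : ℝ) =
      ∑ s ∈ A, (analyticOrderNatAt riemannZeta s : ℝ) := by
  constructor
  · intro z hz
    rw [Finset.mem_image] at hz
    obtain ⟨s, hs, rfl⟩ := hz
    have h := hA s hs
    exact ((hXZ s (by linarith [h.2.2.2.1]) h.2.1 h.2.2.1).1).1 h.1
  · rw [Finset.sum_image (fun x _ y _ h => by simpa using h)]
    refine Finset.sum_congr rfl fun s hs => ?_
    have h := hA s hs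
    rw [(hXZ s (by linarith [h.2.2.2.1]) h.2.1 h.2.2.1).2]

theorem half_re (s : ℂ) : (s - 1 / 2).re = s.re - 1 / 2 := by
  have : ((1 : ℂ) / 2) = ((1 / 2 : ℝ) : ℂ) := by push_cast; ring
  rw [this, sub_re, ofReal_re]

theorem half_im (s : ℂ) : (s - 1 / 2).im = s.im := by
  have : ((1 : ℂ) / 2) = ((1 / 2 : ℝ) : ℂ) := by push_cast; ring
  rw [this, sub_im, ofReal_im, sub_zero]

/-- weights in a set of zeros with bounded distance from the line -/
theorem wt_sum_le (κ V b m : ℝ) (hκ : 0 ≤ κ) (hL : 0 ≤ Real.log V) (A : Finset ℂ)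
    (hb : ∀ s ∈ A, |s.re - 1 / 2| ≤ b)
    (hm : ∑ s ∈ A, (analyticOrderNatAt riemannZeta s : ℝ) ≤ m) :
    ∑ s ∈ A, wt κ V s ≤ m * Real.exp (κ * b * Real.log V) := by
  calc ∑ s ∈ A, wt κ V s ≤ ∑ s ∈ A, (analyticOrderNatAt riemannZeta s : ℝ) *
      Real.exp (κ * b * Real.log V) := by
        refine Finset.sum_le_sum fun s hs => ?_
        unfold wt
        refine mul_le_mul_of_nonneg_left ?_ (Nat.cast_nonneg _)
        rw [Real.exp_le_exp]
        exact mul_le_mul_of_nonneg_right (mul_le_mul_of_nonneg_left (hb s hs) hκ) hL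
    _ = (∑ s ∈ A, (analyticOrderNatAt riemannZeta s : ℝ)) * Real.exp (κ * b * Real.log V) := by
        rw [Finset.sum_mul]
    _ ≤ _ := mul_le_mul_of_nonneg_right hm (Real.exp_pos _).le

theorem wt_nonneg (κ V : ℝ) (s : ℂ) : 0 ≤ wt κ V s :=
  mul_nonneg (Nat.cast_nonneg _) (Real.exp_pos _).le

/-- a good cell -/
theorem good_cell (hXZ : S_XZ) (C V κ a t : ℝ) (k : ℤ) (hκ : 0 ≤ κ) (hV : 10 ≤ V)
    (hL : 0 < Real.log V) (ha : 1 ≤ a) (Z : Finset ℂ)
    (hZ : ∀ s ∈ Z, riemannZeta s = 0 ∧ 0 < s.re ∧ s.re < 1 ∧ V ≤ s.im ∧ s.im ≤ 2 * V)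
    (ht : t ∈ Set.Ico ((k : ℝ) / Real.log V) (((k : ℝ) + 1) / Real.log V))
    (hG : GH C V a t) :
    ∑ s ∈ Z with ci V s = k, wt κ V s ≤ C * a * Real.exp (2 * κ * a) := by
  set A := Z.filter (fun s => ci V s = k) with hA
  have hAZ : ∀ s ∈ A, riemannZeta s = 0 ∧ 0 < s.re ∧ s.re < 1 ∧ V ≤ s.im ∧ s.im ≤ 2 * V :=
    fun s hs => hZ s (Finset.mem_filter.1 hs).1
  have hdist : ∀ s ∈ A, |s.im - t| ≤ ra V a := by
    intro s hs
    have h1 := (cell_iff hL).1 (Finset.mem_filter.1 hs).2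
    have h2 : |s.im - t| ≤ 1 / Real.log V := by
      have h3 : ((k : ℝ) + 1) / Real.log V = (k : ℝ) / Real.log V + 1 / Real.log V := by
        rw [add_div]
      rw [abs_le]
      constructor
      · linarith [ht.2, h1.1]
      · linarith [ht.1, h1.2]
    refine h2.trans ?_
    unfold ra
    rw [div_le_div_iff₀ hL (by positivity)]
    nlinarith
  obtain ⟨hz, hsum⟩ := sum_transfer hXZ V hV A hAZ
  have hcount : ∑ s ∈ A, (analyticOrderNatAt riemannZeta s : ℝ) ≤ C * a := by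
    rw [← hsum]
    refine hG.2 _ ?_
    intro z hz'
    refine ⟨hz z hz', ?_⟩
    rw [Finset.mem_image] at hz'
    obtain ⟨s, hs, rfl⟩ := hz'
    rw [half_im]
    exact hdist s hs
  have hre : ∀ s ∈ A, |s.re - 1 / 2| ≤ ra V a := by
    intro s hs
    have := hG.1 (s - 1 / 2) (hz _ (Finset.mem_image_of_mem _ hs)) (by rw [half_im]; exact hdist s hs)
    rwa [half_re] at this
  refine (wt_sum_le κ V (ra V a) (C * a) hκ hL.le A hre hcount).trans (le_of_eq ?_)
  congr 2
  unfold ra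
  field_simp

/-- any cell -/
theorem any_cell (hXZ : S_XZ) (C1 T1 V κ : ℝ) (k : ℤ) (hκ : 0 ≤ κ) (hV : 10 ≤ V)
    (hL : 1 ≤ Real.log V) (hC1 : 0 < C1) (hT1 : T1 ≤ V) (Z : Finset ℂ)
    (hunit : ∀ (t : ℝ) (n : ℕ), T1 ≤ t → (n : ℝ) ≤ 60 * Real.log t →
      ∀ S : Finset ℂ, (∀ s ∈ S, |s.im - t| ≤ 1 ∧ iteratedDeriv n XX s = 0) →
      ∑ s ∈ S, (analyticOrderNatAt (iteratedDeriv n XX) s : ℝ) ≤ C1 * Real.log t)
    (hZ : ∀ s ∈ Z, riemannZeta s = 0 ∧ 0 < s.re ∧ s.re < 1 ∧ V ≤ s.im ∧ s.im ≤ 2 * V) :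
    ∑ s ∈ Z with ci V s = k, wt κ V s ≤ 2 * C1 * Real.log V * Real.exp (κ * Real.log V / 2) := by
  set A := Z.filter (fun s => ci V s = k) with hA
  have hAZ : ∀ s ∈ A, riemannZeta s = 0 ∧ 0 < s.re ∧ s.re < 1 ∧ V ≤ s.im ∧ s.im ≤ 2 * V :=
    fun s hs => hZ s (Finset.mem_filter.1 hs).1
  rcases A.eq_empty_or_nonempty with he | ⟨s0, hs0⟩
  · rw [he, Finset.sum_empty]
    positivity
  have hL0 : 0 < Real.log V := by linarith
  have hdist : ∀ s ∈ A, |s.im - s0.im| ≤ 1 := by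
    intro s hs
    have h1 := (cell_iff hL0).1 (Finset.mem_filter.1 hs).2
    have h0 := (cell_iff hL0).1 (Finset.mem_filter.1 hs0).2
    have h3 : ((k : ℝ) + 1) / Real.log V = (k : ℝ) / Real.log V + 1 / Real.log V := by
      rw [add_div]
    have h4 : 1 / Real.log V ≤ 1 := by
      rw [div_le_one hL0]; exact hL
    rw [abs_le]
    constructor
    · linarith [h0.2, h1.1]
    · linarith [h0.1, h1.2]
  obtain ⟨hz, hsum⟩ := sum_transfer hXZ V hV A hAZ
  have hs0V := hAZ s0 hs0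
  have hlog : Real.log s0.im ≤ 2 * Real.log V := by
    have h1 : Real.log s0.im ≤ Real.log (V ^ 2) := by
      refine Real.log_le_log (by linarith [hs0V.2.2.2.1]) ?_
      nlinarith [hs0V.2.2.2.2]
    rwa [Real.log_pow, Nat.cast_ofNat] at h1
  have hlog0 : 0 ≤ Real.log s0.im := Real.log_nonneg (by linarith [hs0V.2.2.2.1])
  have hcount : ∑ s ∈ A, (analyticOrderNatAt riemannZeta s : ℝ) ≤ 2 * C1 * Real.log V := by
    rw [← hsum]
    have h1 := hunit s0.im 0 (by linarith [hs0V.2.2.2.1]) (by push_cast; linarith)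
      (A.image (fun s => s - 1 / 2)) (by
        intro z hz'
        rw [iteratedDeriv_zero]
        refine ⟨?_, hz z hz'⟩
        rw [Finset.mem_image] at hz'
        obtain ⟨s, hs, rfl⟩ := hz'
        rw [half_im]
        exact hdist s hs)
    rw [iteratedDeriv_zero] at h1
    refine h1.trans ?_
    nlinarith
  have hre : ∀ s ∈ A, |s.re - 1 / 2| ≤ 1 / 2 := by
    intro s hs
    have := hAZ s hs
    rw [abs_le]
    constructor <;> linarith [this.2.1, this.2.2.1]
  refine (wt_sum_le κ V (1 / 2) (2 * C1 * Real.log V) hκ hL0.le A hre hcount).trans (le_of_eq ?_)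
  congr 2
  ring

/-- powers against exponentials -/
theorem pow4_le (r x : ℝ) (hr : 0 < r) (hx : 0 ≤ x) : x ^ 4 ≤ 24 * (1 / r) ^ 4 * Real.exp (r * x) := by
  have h := Real.pow_div_factorial_le_exp (r * x) (by positivity) 4
  have h1 : ((Nat.factorial 4 : ℕ) : ℝ) = 24 := by norm_num [Nat.factorial]
  rw [h1, div_le_iff₀ (by norm_num), mul_pow] at h
  have h2 : x ^ 4 = (1 / r) ^ 4 * (r ^ 4 * x ^ 4) := by
    rw [← mul_assoc, ← mul_pow, one_div, inv_mul_cancel₀ hr.ne', one_pow, one_mul]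
  rw [h2]
  calc (1 / r) ^ 4 * (r ^ 4 * x ^ 4) ≤ (1 / r) ^ 4 * (Real.exp (r * x) * 24) :=
        mul_le_mul_of_nonneg_left h (by positivity)
    _ = _ := by ring

set_option maxHeartbeats 2000000 in
theorem mb : S_MB := by
  rintro hXZ ⟨c, C, a0, T0, hc, hC, ha0, hT0, hgood⟩ ⟨C1, T1, hC1, hT1, hunit⟩
  set κ : ℝ := c / 1600 with hκ
  have hκ0 : 0 < κ := by positivity
  set q : ℝ := Real.exp (-(c / 2)) with hq
  have hq1 : q < 1 := by rw [hq, Real.exp_lt_one_iff]; linarith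
  have hq0 : 0 < q := Real.exp_pos _
  set A0 : ℝ := (C * a0 * Real.exp (2 * κ * a0)) ^ 4 with hA0
  set D1 : ℝ := C ^ 4 * (24 * (1 / (c / 4)) ^ 4) * Real.exp c with hD1
  set D2 : ℝ := Real.exp c * ((2 * C1) ^ 4 * (24 * (1 / (c / 800)) ^ 4)) with hD2
  have hA0' : 0 < A0 := by positivity
  have hD1' : 0 < D1 := by positivity
  have hD2' : 0 < D2 := by positivity
  have hq1' : 0 < 1 - q := by linarith
  refine ⟨κ, 3 * A0 + C * (D1 * (1 - q)⁻¹) + C * D2,
    max (max 10 (max T0 T1)) (Real.exp (400 * a0 + 400)), hκ0, by positivity,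
    (le_max_left _ _).trans (le_max_left _ _), ?_⟩
  intro V hV Z hZ
  have hV10 : 10 ≤ V := ((le_max_left _ _).trans (le_max_left _ _)).trans hV
  have hVT0 : T0 ≤ V := ((le_max_left _ _).trans ((le_max_right _ _).trans (le_max_left _ _))).trans hV
  have hVT1 : T1 ≤ V := ((le_max_right _ _).trans ((le_max_right _ _).trans (le_max_left _ _))).trans hV
  have hVe : Real.exp (400 * a0 + 400) ≤ V := (le_max_right _ _).trans hV
  have hV0 : 0 < V := by linarith
  set L : ℝ := Real.log V with hLdef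
  have hL400 : 400 * a0 + 400 ≤ L := by
    rw [hLdef, Real.le_log_iff_exp_le hV0]; exact hVe
  have hL1 : 1 ≤ L := by linarith
  have hL0 : 0 < L := by linarith
  set K := Z.image (ci V) with hK
  set M : ℤ → ℝ := fun k => ∑ s ∈ Z with ci V s = k, wt κ V s with hM
  have hMnn : ∀ k, 0 ≤ M k := fun k => Finset.sum_nonneg fun s _ => wt_nonneg κ V s
  set J : ℕ := ⌊L / 400 - a0⌋₊ with hJ
  have hJle : (J : ℝ) ≤ L / 400 - a0 := Nat.floor_le (by linarith)
  have hJlt : L / 400 - a0 < J + 1 := Nat.lt_floor_add_one _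
  -- good cells
  let good : ℤ → ℝ → Prop := fun k a =>
    ∃ t ∈ Set.Ico ((k : ℝ) / L) (((k : ℝ) + 1) / L), GH C V a t
  classical
  have hMgood : ∀ k a, 1 ≤ a → good k a → M k ^ 4 ≤ (C * a * Real.exp (2 * κ * a)) ^ 4 := by
    rintro k a ha ⟨t, ht, hG⟩
    exact pow_le_pow_left₀ (hMnn k)
      (good_cell hXZ C V κ a t k hκ0.le hV10 hL0 ha Z hZ ht hG) 4
  have hMany : ∀ k, M k ^ 4 ≤ (2 * C1 * L * Real.exp (κ * L / 2)) ^ 4 := fun k =>
    pow_le_pow_left₀ (hMnn k)
      (any_cell hXZ C1 T1 V κ k hκ0.le hV10 hL1 hC1 hVT1 Z hunit hZ) 4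
  -- position of the cells
  have hKpos : ∀ k ∈ K, V * L - 1 < k ∧ (k : ℝ) ≤ 2 * V * L := by
    intro k hk
    rw [hK, Finset.mem_image] at hk
    obtain ⟨s, hs, hsk⟩ := hk
    have h1 := (Int.floor_eq_iff).1 (show ⌊s.im * Real.log V⌋ = k from hsk)
    have h2 := hZ s hs
    constructor
    · have : V * L ≤ s.im * L := mul_le_mul_of_nonneg_right h2.2.2.2.1 hL0.le
      linarith [h1.2]
    · have : s.im * L ≤ 2 * V * L := mul_le_mul_of_nonneg_right h2.2.2.2.2 hL0.le
      linarith [h1.1]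
  have hKcard : (K.card : ℝ) ≤ 3 * (V * L) := by
    have hsub : K ⊆ Finset.Icc ⌊V * L⌋ ⌊2 * V * L⌋ := by
      intro k hk
      obtain ⟨h1, h2⟩ := hKpos k hk
      rw [Finset.mem_Icc]
      constructor
      · have h3 : ((⌊V * L⌋ : ℤ) : ℝ) < (k : ℝ) + 1 := by
          have := Int.floor_le (V * L)
          linarith
        have h4 : ⌊V * L⌋ < k + 1 := by exact_mod_cast h3
        omega
      · exact Int.le_floor.2 h2
    have h1 := Finset.card_le_card hsub
    rw [Int.card_Icc] at h1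
    have h2 : ((K.card : ℕ) : ℝ) ≤ ((⌊2 * V * L⌋ + 1 - ⌊V * L⌋).toNat : ℝ) := by exact_mod_cast h1
    refine h2.trans ?_
    have h3 : ⌊V * L⌋ ≤ ⌊2 * V * L⌋ := Int.floor_le_floor (by nlinarith)
    have h4 : (((⌊2 * V * L⌋ + 1 - ⌊V * L⌋).toNat : ℤ) : ℝ) = (⌊2 * V * L⌋ : ℝ) + 1 - ⌊V * L⌋ := by
      rw [Int.toNat_of_nonneg (by omega)]
      push_cast
      ring
    have h5 : (((⌊2 * V * L⌋ + 1 - ⌊V * L⌋).toNat : ℕ) : ℝ) =
        (((⌊2 * V * L⌋ + 1 - ⌊V * L⌋).toNat : ℤ) : ℝ) := by push_cast; rfl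
    rw [h5, h4]
    have h6 := Int.floor_le (2 * V * L)
    have h7 := Int.lt_floor_add_one (V * L)
    have h8 : 1 ≤ V * L := by nlinarith
    linarith
  -- number of bad cells
  have hbad : ∀ a, a0 ≤ a → a ≤ L / 400 →
      ((K.filter (fun k => ¬ good k a)).card : ℝ) ≤ C * (V * L) * Real.exp (-(c * a)) := by
    intro a ha1 ha2
    have h1 := count_cells L hL0 (K.filter (fun k => ¬ good k a))
      {t : ℝ | V / 2 ≤ t ∧ t ≤ 3 * V ∧ ¬ GH C V a t} (C * V * Real.exp (-(c * a))) (by positivity)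
      (hgood V a hVT0 ha1 ha2) (by
        intro k hk t ht
        rw [Finset.mem_filter] at hk
        obtain ⟨h1, h2⟩ := hKpos k hk.1
        have h3 : V - 1 / L ≤ (k : ℝ) / L := by
          rw [le_div_iff₀ hL0, sub_mul, one_div, inv_mul_cancel₀ hL0.ne']
          linarith
        have h4 : ((k : ℝ) + 1) / L ≤ 2 * V + 1 / L := by
          rw [div_le_iff₀ hL0, add_mul, one_div, inv_mul_cancel₀ hL0.ne']
          linarith
        have h5 : 1 / L ≤ 1 := by rw [div_le_one hL0]; exact hL1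
        refine ⟨by linarith [ht.1], by linarith [ht.2], fun hG => hk.2 ⟨t, ht, hG⟩⟩)
    refine h1.trans (le_of_eq (by ring))
  -- pointwise bound
  set A : ℕ → ℝ := fun j => (C * (a0 + j) * Real.exp (2 * κ * (a0 + j))) ^ 4 with hAdef
  set E : ℝ := (2 * C1 * L * Real.exp (κ * L / 2)) ^ 4 with hE
  have hAnn : ∀ j, 0 ≤ A j := fun j => by
    simp only [hAdef]
    positivity
  have hEnn : 0 ≤ E := by positivity
  have hpt : ∀ k ∈ K, M k ^ 4 ≤ A0 + ∑ j ∈ Finset.range J,
      (if ¬ good k (a0 + j) then A (j + 1) else 0) + (if ¬ good k (a0 + J) then E else 0) := by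
    intro k _
    have hs : ∀ j : ℕ, 0 ≤ (if ¬ good k (a0 + (j : ℝ)) then A (j + 1) else 0) := by
      intro j
      split_ifs
      · exact le_rfl
      · exact hAnn _
    have hs' : 0 ≤ ∑ j ∈ Finset.range J, (if ¬ good k (a0 + (j : ℝ)) then A (j + 1) else 0) :=
      Finset.sum_nonneg fun j _ => hs j
    have hl : 0 ≤ (if ¬ good k (a0 + J) then E else 0) := by
      split_ifs
      · exact le_rfl
      · exact hEnn
    by_cases hex : ∃ j : ℕ, j ≤ J ∧ good k (a0 + j)
    · obtain ⟨hj1, hj2⟩ := Nat.find_spec hex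
      have hmin := fun m (hm : m < Nat.find hex) => Nat.find_min hex hm
      rcases hf : Nat.find hex with _ | i
      · rw [hf] at hj2
        have h1 := hMgood k (a0 + (0 : ℕ)) (by push_cast; linarith) hj2
        rw [Nat.cast_zero, add_zero] at h1
        linarith
      · rw [hf] at hj1 hj2 hmin
        have h1 := hMgood k (a0 + ((i + 1 : ℕ) : ℝ)) (by
          have : (0 : ℝ) ≤ ((i + 1 : ℕ) : ℝ) := Nat.cast_nonneg _
          linarith) hj2
        have h2 : ¬ good k (a0 + i) := fun h => hmin i (by omega) ⟨by omega, h⟩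
        have h3 : (if ¬ good k (a0 + (i : ℝ)) then A (i + 1) else 0) ≤
            ∑ j ∈ Finset.range J, (if ¬ good k (a0 + (j : ℝ)) then A (j + 1) else 0) :=
          Finset.single_le_sum (f := fun j : ℕ => (if ¬ good k (a0 + (j : ℝ)) then A (j + 1) else 0))
            (fun j _ => hs j) (Finset.mem_range.2 (by omega))
        rw [if_pos h2] at h3
        have h4 : A (i + 1) = (C * (a0 + ((i + 1 : ℕ) : ℝ)) *
          Real.exp (2 * κ * (a0 + ((i + 1 : ℕ) : ℝ)))) ^ 4 := rfl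
        rw [← h4] at h1
        linarith
    · have h1 : ¬ good k (a0 + J) := fun h => hex ⟨J, le_rfl, h⟩
      rw [if_pos h1]
      have := hMany k
      linarith
  -- the middle sum
  have hmid : ∀ j ∈ Finset.range J, ((K.filter (fun k => ¬ good k (a0 + j))).card : ℝ) * A (j + 1) ≤
      C * (V * L) * (D1 * q ^ j) := by
    intro j hj
    have hjJ : (j : ℝ) + 1 ≤ J := by
      have := Finset.mem_range.1 hj
      exact_mod_cast this
    have h1 := hbad (a0 + j) (by linarith [(Nat.cast_nonneg j : (0 : ℝ) ≤ j)]) (by linarith)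
    have h2 : Real.exp (-(c * (a0 + j))) * A (j + 1) ≤ D1 * q ^ j := by
      set x : ℝ := a0 + ((j + 1 : ℕ) : ℝ) with hx
      have hx0 : 0 ≤ x := by positivity
      have h3 := pow4_le (c / 4) x (by positivity) hx0
      have hAx : A (j + 1) = C ^ 4 * x ^ 4 * Real.exp (8 * κ * x) := by
        simp only [hAdef]
        rw [← hx, mul_pow, mul_pow, ← Real.exp_nat_mul]
        congr 2
        push_cast
        ring
      have hxj : x = a0 + j + 1 := by rw [hx]; push_cast; ring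
      have hqj : q ^ j = Real.exp (-(c / 2 * j)) := by
        rw [hq, ← Real.exp_nat_mul]
        congr 1
        ring
      calc Real.exp (-(c * (a0 + j))) * A (j + 1)
          = C ^ 4 * (Real.exp (-(c * (a0 + j))) * Real.exp (8 * κ * x)) * x ^ 4 := by rw [hAx]; ring
        _ ≤ C ^ 4 * (Real.exp (-(c * (a0 + j))) * Real.exp (8 * κ * x)) *
            (24 * (1 / (c / 4)) ^ 4 * Real.exp (c / 4 * x)) :=
            mul_le_mul_of_nonneg_left h3 (by positivity)
        _ = C ^ 4 * (24 * (1 / (c / 4)) ^ 4) * (Real.exp (-(c * (a0 + j))) * Real.exp (8 * κ * x) *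
            Real.exp (c / 4 * x)) := by ring
        _ ≤ C ^ 4 * (24 * (1 / (c / 4)) ^ 4) * (Real.exp c * Real.exp (-(c / 2 * j))) := by
            refine mul_le_mul_of_nonneg_left ?_ (by positivity)
            rw [← Real.exp_add, ← Real.exp_add, ← Real.exp_add, Real.exp_le_exp, hxj, hκ]
            have hj0 : (0 : ℝ) ≤ j := Nat.cast_nonneg j
            nlinarith [mul_nonneg hc.le hj0, mul_pos hc (by linarith : (0 : ℝ) < a0)]
        _ = D1 * q ^ j := by rw [hqj, hD1]; ring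
    calc ((K.filter (fun k => ¬ good k (a0 + j))).card : ℝ) * A (j + 1)
        ≤ C * (V * L) * Real.exp (-(c * (a0 + j))) * A (j + 1) :=
          mul_le_mul_of_nonneg_right h1 (hAnn _)
      _ = C * (V * L) * (Real.exp (-(c * (a0 + j))) * A (j + 1)) := by ring
      _ ≤ _ := mul_le_mul_of_nonneg_left h2 (by positivity)
  have hlast : ((K.filter (fun k => ¬ good k (a0 + J))).card : ℝ) * E ≤ C * (V * L) * D2 := by
    have h1 := hbad (a0 + J) (by linarith [(Nat.cast_nonneg J : (0 : ℝ) ≤ J)]) (by linarith)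
    have h2 : Real.exp (-(c * (a0 + J))) * E ≤ D2 := by
      have h3 := pow4_le (c / 800) L (by positivity) hL0.le
      have hE' : E = (2 * C1) ^ 4 * L ^ 4 * Real.exp (2 * κ * L) := by
        rw [hE, mul_pow, mul_pow, ← Real.exp_nat_mul]
        congr 2
        push_cast
        ring
      calc Real.exp (-(c * (a0 + J))) * E
          = (2 * C1) ^ 4 * (Real.exp (-(c * (a0 + J))) * Real.exp (2 * κ * L)) * L ^ 4 := by
            rw [hE']; ring
        _ ≤ (2 * C1) ^ 4 * (Real.exp (-(c * (a0 + J))) * Real.exp (2 * κ * L)) *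
            (24 * (1 / (c / 800)) ^ 4 * Real.exp (c / 800 * L)) :=
            mul_le_mul_of_nonneg_left h3 (by positivity)
        _ = (2 * C1) ^ 4 * (24 * (1 / (c / 800)) ^ 4) * (Real.exp (-(c * (a0 + J))) *
            Real.exp (2 * κ * L) * Real.exp (c / 800 * L)) := by ring
        _ ≤ (2 * C1) ^ 4 * (24 * (1 / (c / 800)) ^ 4) * Real.exp c := by
            refine mul_le_mul_of_nonneg_left ?_ (by positivity)
            rw [← Real.exp_add, ← Real.exp_add, Real.exp_le_exp, hκ]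
            have h5 : c * (L / 400 - a0) ≤ c * (J + 1) := mul_le_mul_of_nonneg_left hJlt.le hc.le
            nlinarith
        _ = D2 := by rw [hD2]; ring
    calc ((K.filter (fun k => ¬ good k (a0 + J))).card : ℝ) * E
        ≤ C * (V * L) * Real.exp (-(c * (a0 + J))) * E :=
          mul_le_mul_of_nonneg_right h1 hEnn
      _ = C * (V * L) * (Real.exp (-(c * (a0 + J))) * E) := by ring
      _ ≤ _ := mul_le_mul_of_nonneg_left h2 (by positivity)
  have hgeom : ∑ j ∈ Finset.range J, q ^ j ≤ (1 - q)⁻¹ := by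
    rw [← tsum_geometric_of_lt_one hq0.le hq1]
    exact (summable_geometric_of_lt_one hq0.le hq1).sum_le_tsum _ (fun _ _ => by positivity)
  -- total
  calc ∑ k ∈ K, M k ^ 4 ≤ ∑ k ∈ K, (A0 + ∑ j ∈ Finset.range J,
      (if ¬ good k (a0 + j) then A (j + 1) else 0) + (if ¬ good k (a0 + J) then E else 0)) :=
        Finset.sum_le_sum hpt
    _ = K.card * A0 + ∑ j ∈ Finset.range J,
          ((K.filter (fun k => ¬ good k (a0 + j))).card : ℝ) * A (j + 1) +
          ((K.filter (fun k => ¬ good k (a0 + J))).card : ℝ) * E := by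
        rw [Finset.sum_add_distrib, Finset.sum_add_distrib, Finset.sum_const, nsmul_eq_mul,
          Finset.sum_comm]
        congr 1
        · congr 1
          refine Finset.sum_congr rfl fun j _ => ?_
          rw [← Finset.sum_filter, Finset.sum_const, nsmul_eq_mul]
        · rw [← Finset.sum_filter, Finset.sum_const, nsmul_eq_mul]
    _ ≤ 3 * (V * L) * A0 + ∑ j ∈ Finset.range J, C * (V * L) * (D1 * q ^ j) + C * (V * L) * D2 := by
        refine add_le_add (add_le_add ?_ (Finset.sum_le_sum hmid)) hlast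
        exact mul_le_mul_of_nonneg_right hKcard hA0'.le
    _ = 3 * (V * L) * A0 + C * (V * L) * (D1 * ∑ j ∈ Finset.range J, q ^ j) + C * (V * L) * D2 := by
        rw [Finset.mul_sum, Finset.mul_sum]
    _ ≤ 3 * (V * L) * A0 + C * (V * L) * (D1 * (1 - q)⁻¹) + C * (V * L) * D2 := by
        have h1 : C * (V * L) * (D1 * ∑ j ∈ Finset.range J, q ^ j) ≤
            C * (V * L) * (D1 * (1 - q)⁻¹) :=
          mul_le_mul_of_nonneg_left (mul_le_mul_of_nonneg_left hgeom hD1'.le) (by positivity)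
        linarith
    _ = _ := by ring

end Pool.Agent.W337.PU
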